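import Mathlib
import Pool.Agent.V11321.OF.Final

/-!
Oriented bond percolation in a box of side `n`: the maximal number `V(n,p)` of edge-disjoint open
oriented paths from the lower left sides to the upper right sides satisfies
`1 - v(p) ∼ √(2 (1 - p))` as `p ↑ 1`, where `v(p)` is the `L¹` limit of `V(n,p) / (2 n)`.

Upper bound for `V`: the closed edges leaving the vertices of a strict chain lie on a common cut, and
the maximal chain is a strict last passage percolation model with parameter `1 - p²`, computed by its
stationary version (Burke property, exit points). Lower bound for `V`: by planar duality `V` is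
`2 (n - 2)` minus the best gain of a dual walk, and a first moment estimate shows that the non-chain
part of the best dual walk is negligible when `1 - p` is small.
-/

set_option autoImplicit false

namespace Pool.Agent.Results.MP_465a95_pr.FlowAsymptotics

open Pool.Agent.V11321.OF Filter Topology

/-- `(1 - E V(n,p) / (2 n)) / √(2 (1 - p))` is as close to `1` as desired for `p` close to `1` and
`n` large; consequently, whenever `v(p)` is the `L¹` limit of `V(n,p) / (2 n)` for `0 < p < 1`,
`(1 - v(p)) / √(2 (1 - p)) → 1` as `p ↑ 1`. Here `EX p (edges n) f` is the mean of `f O` over the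
random set `O` of open edges. -/
theorem result :
    (∀ ε : ℝ, 0 < ε → ∃ p₀ : ℝ, p₀ < 1 ∧ ∀ p : ℝ, p₀ < p → p < 1 → ∃ N : ℕ, ∀ n : ℕ, N ≤ n →
      |(1 - EX p (edges n) (fun O => (V n O : ℝ)) / (2 * n)) / Real.sqrt (2 * (1 - p)) - 1| ≤ ε) ∧
    (∀ v : ℝ → ℝ, (∀ p : ℝ, 0 < p → p < 1 →
      Tendsto (fun n : ℕ => EX p (edges n) (fun O => |(V n O : ℝ) / (2 * n) - v p|)) atTop (𝓝 0)) →
      Tendsto (fun p => (1 - v p) / Real.sqrt (2 * (1 - p))) (𝓝[<] 1) (𝓝 1)) := by
  refine ⟨fun ε hε => ?_, main_v⟩
  obtain ⟨p₀, _, h1, h2⟩ := main hε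
  exact ⟨p₀, h1, h2⟩

end Pool.Agent.Results.MP_465a95_pr.FlowAsymptotics
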